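import Pool.Agent.V7H61.Twist

set_option autoImplicit false
set_option linter.unusedSectionVars false

/-!
# Values of the invariant gamma below 2

`G` is a finite group, `k` a field of prime characteristic `p`.  For a finite-dimensional
representation `M` write `c_n(M)` for the dimension of the core of the `n`-th tensor power and
`gamma M = limsup c_n(M)^(1/n)`.

Main theorem `result`:

* the definition of the dimension of the core used here is the standard one;
* `sqrt (gamma (M ⊗ M*))` is `0`, `1`, a number `2 cos (π / p^j)` with `j ≥ 1`, or at least `2`,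
  for every `M`;
* if `M` is stably isomorphic to its dual, or to its dual twisted by a module `D` with
  `gamma D ≤ 1`, then `gamma M` itself is such a number, so that Q1 and Q2 hold for `M`;
* if `gamma M < 2` and `p` is odd or `dim M` is odd, then `M` is projective, or endotrivial, or
  (only for `p` odd and `dim M` congruent to `2` or `-2` modulo `p`) stably isomorphic to its dual
  twisted by an endotrivial module.
-/

open scoped TensorProduct
open Filter

universe u v

namespace Pool.Agent.Results.MP_13b5a2_al.GammaValuesH61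

/-- A finite-dimensional representation of `G` over `k`. -/
structure FRep (k : Type u) (G : Type v) [Field k] [Group G] where
  /-- the underlying space -/
  V : Type u
  [grp : AddCommGroup V]
  [mod : Module k V]
  [fd : FiniteDimensional k V]
  /-- the action of `G` -/
  ρ : Representation k G V

attribute [instance] FRep.grp FRep.mod FRep.fd

section defs

variable {k : Type u} {G : Type v} [Field k] [Group G]

/-- the dimension -/
noncomputable def FRep.dim (A : FRep k G) : ℕ := Module.finrank k A.V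

/-- isomorphism of representations: a linear equivalence commuting with `G` -/
def FRep.Iso (A B : FRep k G) : Prop := ∃ e : A.V ≃ₗ[k] B.V, ∀ g v, e (A.ρ g v) = B.ρ g (e v)

/-- the trivial representation `k` -/
def FRep.triv (k : Type u) (G : Type v) [Field k] [Group G] : FRep k G :=
  ⟨k, (1 : Representation k G k)⟩

/-- the direct sum -/
noncomputable def FRep.sum (A B : FRep k G) : FRep k G := ⟨A.V × B.V, A.ρ.prod B.ρ⟩

/-- the tensor product over `k` with diagonal action -/
noncomputable def FRep.tensor (A B : FRep k G) : FRep k G := ⟨A.V ⊗[k] B.V, A.ρ.tprod B.ρ⟩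

/-- the dual representation -/
noncomputable def FRep.dual (A : FRep k G) : FRep k G := ⟨Module.Dual k A.V, A.ρ.dual⟩

/-- tensor powers, with `M^{⊗ 0} = k` -/
noncomputable def FRep.pow (A : FRep k G) : ℕ → FRep k G
  | 0 => FRep.triv k G
  | n + 1 => (A.pow n).tensor A

/-- projectivity as a module over the group algebra -/
def FRep.IsProjective (A : FRep k G) : Prop :=
  Module.Projective (MonoidAlgebra k G) A.ρ.asModule

/-- no nonzero projective direct summand -/
def FRep.NoProjSummand (A : FRep k G) : Prop :=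
  ∀ B P : FRep k G, P.IsProjective → A.Iso (B.sum P) → P.dim = 0

/-- `C` is a core of `A`: it has no nonzero projective direct summand and `A ≅ C ⊕ P` with `P`
projective -/
def FRep.IsCore (C A : FRep k G) : Prop :=
  C.NoProjSummand ∧ ∃ P : FRep k G, P.IsProjective ∧ A.Iso (C.sum P)

/-- the dimension of the core (the least dimension of a complement to a projective summand) -/
noncomputable def FRep.coreDim (A : FRep k G) : ℕ :=
  sInf {n | ∃ C P : FRep k G, P.IsProjective ∧ A.Iso (C.sum P) ∧ C.dim = n}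

/-- the invariant `γ` -/
noncomputable def FRep.gamma (A : FRep k G) : ℝ :=
  limsup (fun n : ℕ => ((A.pow n).coreDim : ℝ) ^ (1 / (n : ℝ))) atTop

/-- `A ⊗ A* ≅ k ⊕ (projective)` -/
def FRep.IsEndotrivial (A : FRep k G) : Prop :=
  ∃ P : FRep k G, P.IsProjective ∧ (A.tensor A.dual).Iso ((FRep.triv k G).sum P)

/-- stable isomorphism: `A ⊕ P ≅ B ⊕ Q` with `P`, `Q` projective -/
def FRep.StableIso (A B : FRep k G) : Prop :=
  ∃ P Q : FRep k G, P.IsProjective ∧ Q.IsProjective ∧ (A.sum P).Iso (B.sum Q)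

end defs

/-- the numbers `0`, `1`, `2 cos (π / p^j)` with `j ≥ 1`, and everything from `2` on -/
def Allowed (p : ℕ) (x : ℝ) : Prop :=
  x = 0 ∨ x = 1 ∨ (∃ j : ℕ, 1 ≤ j ∧ x = 2 * Real.cos (Real.pi / (p : ℝ) ^ j)) ∨ 2 ≤ x

/-- the conclusions of Q1 and Q2 for a real number `x` -/
def QOneTwo (p : ℕ) (x : ℝ) : Prop :=
  (1 < x → x < 2 → ∃ n : ℕ, 4 ≤ n ∧ x = 2 * Real.cos (Real.pi / (n : ℝ))) ∧
  (∀ n : ℕ, 4 ≤ n → x = 2 * Real.cos (Real.pi / (n : ℝ)) → ∃ a : ℕ, n = p ^ a)

section numbers

open Real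

lemma one_lt_two_cos {n : ℕ} (hn : 4 ≤ n) : 1 < 2 * cos (π / (n : ℝ)) := by
  have hn' : (4 : ℝ) ≤ n := by exact_mod_cast hn
  have h1 : π / (n : ℝ) ≤ π / 4 := by
    apply div_le_div_of_nonneg_left pi_pos.le (by norm_num) hn'
  have h2 : cos (π / 4) ≤ cos (π / (n : ℝ)) := by
    apply cos_le_cos_of_nonneg_of_le_pi _ _ h1
    · positivity
    · linarith [pi_pos]
  rw [cos_pi_div_four] at h2
  have h3 : (1.4 : ℝ) ≤ Real.sqrt 2 := by
    apply Real.le_sqrt_of_sq_le; norm_num
  linarith

lemma two_cos_lt_two {n : ℕ} (hn : 1 ≤ n) : 2 * cos (π / (n : ℝ)) < 2 := by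
  have hn' : (1 : ℝ) ≤ n := by exact_mod_cast hn
  have h0 : 0 < π / (n : ℝ) := by positivity
  have h1 : π / (n : ℝ) ≤ π := div_le_self pi_pos.le hn'
  have h2 : cos (π / (n : ℝ)) < cos 0 := cos_lt_cos_of_nonneg_of_le_pi le_rfl h1 h0
  rw [cos_zero] at h2
  linarith

lemma four_le_of_one_lt {n : ℕ} (hn : 1 ≤ n) (h : 1 < 2 * cos (π / (n : ℝ))) : 4 ≤ n := by
  by_contra hlt
  push Not at hlt
  interval_cases n
  · simp at h; linarith
  · simp at h; linarith
  · push_cast at h
    rw [cos_pi_div_three] at h; linarith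

lemma inj_cos {m n : ℕ} (hm : 1 ≤ m) (hn : 1 ≤ n)
    (h : 2 * cos (π / (m : ℝ)) = 2 * cos (π / (n : ℝ))) : m = n := by
  have hm' : (1 : ℝ) ≤ m := by exact_mod_cast hm
  have hn' : (1 : ℝ) ≤ n := by exact_mod_cast hn
  have h1 : cos (π / (m : ℝ)) = cos (π / (n : ℝ)) := by linarith
  have h2 : π / (m : ℝ) = π / (n : ℝ) := by
    apply injOn_cos _ _ h1
    · exact ⟨by positivity, div_le_self pi_pos.le hm'⟩
    · exact ⟨by positivity, div_le_self pi_pos.le hn'⟩
  have h3 : (m : ℝ) = n := by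
    have hm0 : (m : ℝ) ≠ 0 := by positivity
    have hn0 : (n : ℝ) ≠ 0 := by positivity
    field_simp at h2
    exact h2.symm
  exact_mod_cast h3

lemma Allowed.qOneTwo {p : ℕ} (hp : p.Prime) {x : ℝ} (h : Allowed p x) : QOneTwo p x := by
  have hpow : ∀ j : ℕ, 1 ≤ p ^ j := fun j => Nat.one_le_pow _ _ hp.pos
  rcases h with h | h | ⟨j, hj, h⟩ | h
  · refine ⟨fun h1 _ => absurd h1 (by rw [h]; norm_num), fun n hn h2 => ?_⟩
    have := one_lt_two_cos hn
    linarith
  · refine ⟨fun h1 _ => absurd h1 (by rw [h]; norm_num), fun n hn h2 => ?_⟩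
    have := one_lt_two_cos hn
    linarith
  · have h' : x = 2 * cos (π / ((p ^ j : ℕ) : ℝ)) := by rw [h]; push_cast; rfl
    refine ⟨fun h1 _ => ⟨p ^ j, four_le_of_one_lt (hpow j) (h' ▸ h1), h'⟩, fun n hn h2 => ?_⟩
    exact ⟨j, inj_cos (by omega) (hpow j) (h2.symm.trans h')⟩
  · refine ⟨fun _ h1 => absurd h1 (not_lt.2 h), fun n hn h2 => ?_⟩
    have := two_cos_lt_two (n := n) (by omega)
    linarith

end numbers

section bridge

open Pool.Agent.V7H61

variable {k : Type u} {G : Type v} [Field k] [Group G]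

/-- the class of a representation in the semiring of isomorphism classes -/
def toGr (A : FRep k G) : Gr k G := cls A.ρ

lemma toGr_surj (x : Gr k G) : ∃ A : FRep k G, toGr A = x := by
  induction x using Gr.ind with | _ V ρ
  exact ⟨⟨V, ρ⟩, rfl⟩

lemma iso_iff (A B : FRep k G) : A.Iso B ↔ toGr A = toGr B := cls_eq.symm

lemma toGr_sum (A B : FRep k G) : toGr (A.sum B) = toGr A + toGr B := rfl
lemma toGr_tensor (A B : FRep k G) : toGr (A.tensor B) = toGr A * toGr B := rfl
lemma toGr_dual (A : FRep k G) : toGr A.dual = (toGr A).star := rfl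
lemma toGr_triv : toGr (FRep.triv k G) = 1 := rfl
lemma toGr_dim (A : FRep k G) : (toGr A).dim = A.dim := rfl

lemma toGr_pow (A : FRep k G) (n : ℕ) : toGr (A.pow n) = toGr A ^ n := by
  induction n with
  | zero => rw [pow_zero]; rfl
  | succ n ih => rw [pow_succ, ← ih]; rfl

variable [Fintype G]

lemma proj_iff (A : FRep k G) : A.IsProjective ↔ (toGr A).Proj := (hp_iff A.ρ).symm

lemma pure_iff (A : FRep k G) : A.NoProjSummand ↔ (toGr A).Pure := by
  constructor
  · intro h w q hwq hq
    obtain ⟨B, rfl⟩ := toGr_surj w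
    obtain ⟨P, rfl⟩ := toGr_surj q
    apply eq_zero_of_dim
    rw [toGr_dim]
    exact h B P ((proj_iff P).2 hq) ((iso_iff _ _).2 hwq)
  · intro h B P hP hiso
    have := h (toGr B) (toGr P) ((iso_iff _ _).1 hiso) ((proj_iff P).1 hP)
    rw [← toGr_dim, this, dim_zero]

lemma coreDim_eq (A : FRep k G) : A.coreDim = (toGr A).c := by
  unfold FRep.coreDim Gr.c
  congr 1
  ext n
  constructor
  · rintro ⟨C, P, hP, hiso, hd⟩
    exact ⟨toGr C, toGr P, (iso_iff _ _).1 hiso, (proj_iff P).1 hP, hd⟩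
  · rintro ⟨w, q, hwq, hq, hd⟩
    obtain ⟨C, rfl⟩ := toGr_surj w
    obtain ⟨P, rfl⟩ := toGr_surj q
    exact ⟨C, P, (proj_iff P).2 hq, (iso_iff _ _).2 hwq, hd⟩

lemma gamma_eq (A : FRep k G) : A.gamma = (toGr A).gam := by
  unfold FRep.gamma Gr.gam
  congr 1
  funext n
  rw [coreDim_eq, toGr_pow]

lemma et_iff (A : FRep k G) : A.IsEndotrivial ↔ ET (toGr A) := by
  constructor
  · rintro ⟨P, hP, hiso⟩
    exact ⟨toGr P, (proj_iff P).1 hP, (iso_iff _ _).1 hiso⟩
  · rintro ⟨q, hq, h⟩
    obtain ⟨P, rfl⟩ := toGr_surj q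
    exact ⟨P, (proj_iff P).2 hq, (iso_iff _ _).2 h⟩

lemma core_exists (A : FRep k G) : ∃ C : FRep k G, C.IsCore A := by
  obtain ⟨w, q, h, hq, hw, _⟩ := exists_core (toGr A)
  obtain ⟨C, rfl⟩ := toGr_surj w
  obtain ⟨P, rfl⟩ := toGr_surj q
  exact ⟨C, (pure_iff C).2 hw, P, (proj_iff P).2 hq, (iso_iff _ _).2 h⟩

lemma core_dim {A C : FRep k G} (h : C.IsCore A) : C.dim = A.coreDim := by
  obtain ⟨hC, P, hP, hiso⟩ := h
  rw [coreDim_eq, c_eq ((iso_iff _ _).1 hiso) ((proj_iff P).1 hP) ((pure_iff C).1 hC)]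
  rfl

lemma stable_allowed {p : ℕ} (hp : p.Prime) [CharP k p] {M D : FRep k G}
    (h : (M.dual.tensor D).StableIso M) (hD : D.gamma ≤ 1) :
    M.gamma = Real.sqrt (M.tensor M.dual).gamma ∧ Allowed p M.gamma ∧ QOneTwo p M.gamma := by
  obtain ⟨P, Q, hP, hQ, hiso⟩ := h
  have h1 := (iso_iff _ _).1 hiso
  rw [gamma_eq] at hD
  have h2 : M.gamma = Real.sqrt (M.tensor M.dual).gamma := by
    rw [gamma_eq, gamma_eq]
    exact gam_twist' ((proj_iff P).1 hP) ((proj_iff Q).1 hQ) h1 hD
  have h3 : Allowed p M.gamma := by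
    rw [h2, gamma_eq]
    exact gam_values hp (toGr M)
  exact ⟨h2, h3, h3.qOneTwo hp⟩

end bridge

/-- See the header of the file. -/
theorem result {k : Type u} {G : Type v} [Field k] [Group G] [Finite G] (p : ℕ) (hp : p.Prime)
    [CharP k p] :
    -- the core exists, and its dimension is `coreDim`
    (∀ A : FRep k G, (∃ C : FRep k G, C.IsCore A) ∧
      ∀ C : FRep k G, C.IsCore A → C.dim = A.coreDim) ∧
    -- (1) the values of `sqrt (gamma (M ⊗ M*))`, for every module
    (∀ M : FRep k G, Allowed p (Real.sqrt (M.tensor M.dual).gamma) ∧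
      (M.tensor M.dual).gamma ≤ M.gamma ^ 2) ∧
    -- (2) modules stably isomorphic to their dual satisfy Q1 and Q2
    (∀ M : FRep k G, M.dual.StableIso M →
      M.gamma = Real.sqrt (M.tensor M.dual).gamma ∧ Allowed p M.gamma ∧ QOneTwo p M.gamma) ∧
    -- (3) the same up to a twist of growth rate at most one
    (∀ M D : FRep k G, (M.dual.tensor D).StableIso M → D.gamma ≤ 1 →
      M.gamma = Real.sqrt (M.tensor M.dual).gamma ∧ Allowed p M.gamma ∧ QOneTwo p M.gamma) ∧
    -- (3') twists allowed in (3): one-dimensional modules, and more generally all `D` some tensor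
    -- power of which is stably isomorphic to the trivial module
    (∀ (D : FRep k G) (m : ℕ), 1 ≤ m → (D.pow m).StableIso (FRep.triv k G) → D.gamma ≤ 1) ∧
    (∀ D : FRep k G, D.dim = 1 → D.gamma ≤ 1) ∧
    -- (4) the structure of modules with `gamma M < 2`, for `p` odd or `dim M` odd
    (∀ M : FRep k G, (p ≠ 2 ∨ Odd M.dim) → M.gamma < 2 →
      M.IsProjective ∨ M.IsEndotrivial ∨
      (p ≠ 2 ∧ ((M.dim : ZMod p) = 2 ∨ (M.dim : ZMod p) = -2) ∧
        ∃ D P : FRep k G, D.IsEndotrivial ∧ P.IsProjective ∧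
          (M.dual.tensor D).Iso (M.sum P))) ∧
    -- (5) reduction of Q1 and Q2 to the growth rate of endotrivial modules
    ((∀ D : FRep k G, D.IsEndotrivial → D.gamma ≤ 1) →
      ∀ M : FRep k G, (p ≠ 2 ∨ Odd M.dim) → QOneTwo p M.gamma) := by
  have := Fintype.ofFinite G
  have hself : ∀ M : FRep k G, M.dual.StableIso M → (M.dual.tensor (FRep.triv k G)).StableIso M := by
    rintro M ⟨P, Q, hP, hQ, h⟩
    refine ⟨P, Q, hP, hQ, ?_⟩
    rw [iso_iff] at h ⊢
    rw [toGr_sum, toGr_tensor, toGr_triv, mul_one, ← toGr_sum]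
    exact h
  have hodd : ∀ M : FRep k G, (p ≠ 2 ∨ Odd M.dim) → ((2 : k) ≠ 0 ∨ ((M.dim : ℕ) : k) ≠ 0) := by
    intro M h
    by_cases hp2 : p = 2
    · right
      subst hp2
      intro h0
      have h1 : 2 ∣ M.dim := (CharP.cast_eq_zero_iff k 2 M.dim).1 h0
      rcases h with h | h
      · exact h rfl
      · obtain ⟨m, hm⟩ := h
        omega
    · left
      intro h0
      have h1 : p ∣ 2 := (CharP.cast_eq_zero_iff k p 2).1 (by exact_mod_cast h0)
      exact hp2 ((Nat.prime_dvd_prime_iff_eq hp Nat.prime_two).1 h1)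
  have hsq : ∀ M : FRep k G, (M.tensor M.dual).gamma ≤ M.gamma ^ 2 := by
    intro M
    rw [gamma_eq, gamma_eq]
    exact Pool.Agent.V7H61.gam_norm_le (toGr M)
  have hstruct : ∀ M : FRep k G, (p ≠ 2 ∨ Odd M.dim) → M.gamma < 2 →
      M.IsProjective ∨ M.IsEndotrivial ∨
      (p ≠ 2 ∧ ((M.dim : ZMod p) = 2 ∨ (M.dim : ZMod p) = -2) ∧
        ∃ D P : FRep k G, D.IsEndotrivial ∧ P.IsProjective ∧
          (M.dual.tensor D).Iso (M.sum P)) := by
    intro M hM hlt
    have h0 : 0 ≤ M.gamma := by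
      rw [gamma_eq]; exact Pool.Agent.V7H61.gam_nonneg _
    have h4 : (toGr M * (toGr M).star).gam < 4 := by
      have := hsq M
      rw [gamma_eq, toGr_tensor, toGr_dual] at this
      nlinarith
    rcases Pool.Agent.V7H61.trichotomy (toGr M) (hodd M hM) h4 with h | h | ⟨h2, hd, D, P, hD, hP, h⟩
    · exact Or.inl ((proj_iff M).2 h)
    · exact Or.inr (Or.inl ((et_iff M).2 h))
    · right; right
      have hp2 : p ≠ 2 := by
        rintro rfl
        exact h2 (by exact_mod_cast CharP.cast_eq_zero k 2)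
      refine ⟨hp2, ?_, ?_⟩
      · let f : ZMod p →+* k := ZMod.castHom dvd_rfl k
        have : Fact p.Prime := ⟨hp⟩
        have hf : Function.Injective f := f.injective
        rcases hd with hd | hd
        · left
          apply hf
          rw [map_natCast, map_ofNat]
          exact hd
        · right
          apply hf
          rw [map_natCast, map_neg, map_ofNat]
          exact hd
      · obtain ⟨D, rfl⟩ := toGr_surj D
        obtain ⟨P, rfl⟩ := toGr_surj P
        exact ⟨D, P, (et_iff D).2 hD, (proj_iff P).2 hP, (iso_iff _ _).2 h⟩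
  have htriv : (FRep.triv k G).gamma ≤ 1 := by
    rw [gamma_eq]; exact Pool.Agent.V7H61.gam_one_le
  refine ⟨fun A => ⟨core_exists A, fun C hC => core_dim hC⟩, fun M => ⟨?_, hsq M⟩,
    fun M hM => stable_allowed hp (hself M hM) htriv,
    fun M D h hD => stable_allowed hp h hD, ?_, ?_, hstruct, ?_⟩
  · rw [gamma_eq]
    exact Pool.Agent.V7H61.gam_values hp (toGr M)
  · rintro D m hm ⟨P, Q, hP, hQ, h⟩
    have h1 := (iso_iff _ _).1 h
    rw [toGr_sum, toGr_sum, toGr_pow, toGr_triv] at h1
    rw [gamma_eq]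
    exact Pool.Agent.V7H61.gam_torsion hm ((proj_iff P).1 hP) ((proj_iff Q).1 hQ) h1
  · intro D hD
    rw [gamma_eq]
    exact Pool.Agent.V7H61.gam_dim_one hD
  · intro hET M hM
    by_cases hlt : M.gamma < 2
    · rcases hstruct M hM hlt with h | h | ⟨_, _, D, P, hD, hP, h⟩
      · have : M.gamma = 0 := by
          rw [gamma_eq]; exact Pool.Agent.V7H61.gam_eq_zero_of_proj ((proj_iff M).1 h)
        exact Allowed.qOneTwo hp (Or.inl this)
      · have h1 := hET M h
        refine ⟨fun h2 _ => absurd h2 (not_lt.2 h1), fun n hn h2 => ?_⟩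
        have := one_lt_two_cos hn
        linarith
      · refine (stable_allowed hp (D := D) ?_ (hET D hD)).2.2
        obtain ⟨Z, hZ⟩ := toGr_surj (0 : Pool.Agent.V7H61.Gr k G)
        refine ⟨Z, P, (proj_iff Z).2 (by rw [hZ]; exact Pool.Agent.V7H61.proj_zero), hP, ?_⟩
        rw [iso_iff] at h ⊢
        rw [toGr_sum, hZ, add_zero]
        exact h
    · exact Allowed.qOneTwo hp (Or.inr (Or.inr (Or.inr (not_lt.1 hlt))))

end Pool.Agent.Results.MP_13b5a2_al.GammaValuesH61
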